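import Pool.Agent.H.MP_3f2ebd_al.A

set_option autoImplicit false

namespace Pool.Agent.H.MP_b39e30_al

open Subgroup Pool.Agent.H.MP_a1472e_al Pool.Agent.H.MP_b9f959_al Pool.Agent.H.MP_3f2ebd_al
open scoped commutatorElement

theorem lcs_pow {A : Type} [Ring A] (N : Submodule ℤ A) (hN : N * N ≤ N) (P : Subgroup Aˣ)
    (hP : ∀ g ∈ P, (g : A) - 1 ∈ N) (i : ℕ) :
    ∀ g ∈ P.lowerCentralSeries i, (g : A) - 1 ∈ N ^ (i + 1) := by
  have ab : ∀ k, ∀ a ∈ N ^ (k + 1), ∀ g ∈ P, a * (g : A) ∈ N ^ (k + 1) := fun k a ha g hg => by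
    have h1 : N ^ (k + 1) * N ≤ N ^ (k + 1) := by
      rw [pow_succ, mul_assoc]; exact mul_le_mul_right hN _
    have := add_mem ha (h1 (Submodule.mul_mem_mul ha (hP g hg)))
    convert this using 1
    noncomm_ring
  induction i with
  | zero => simpa using hP
  | succ i ih =>
    let Q : Subgroup Aˣ :=
      { carrier := {g | g ∈ P ∧ (g : A) - 1 ∈ N ^ (i + 1 + 1)}
        one_mem' := ⟨one_mem _, by simp⟩
        mul_mem' := fun {a b} ha hb => ⟨mul_mem ha.1 hb.1, by
          have := add_mem (ab _ _ ha.2 b hb.1) hb.2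
          convert this using 1
          rw [Units.val_mul]; noncomm_ring⟩
        inv_mem' := fun {a} ha => ⟨inv_mem ha.1, by
          have := neg_mem (ab _ _ ha.2 _ (inv_mem ha.1))
          convert this using 1
          rw [sub_mul, Units.mul_inv]; noncomm_ring⟩ }
    have : P.lowerCentralSeries (i + 1) ≤ Q := commutator_le.2 fun g hg h hh => by
      have hg' := P.lowerCentralSeries_le_self i hg
      refine ⟨mul_mem (mul_mem (mul_mem hg' hh) (inv_mem hg')) (inv_mem hh), ?_⟩
      have h1 := Submodule.mul_mem_mul (ih g hg) (hP h hh)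
      have h2 := Submodule.mul_mem_mul (hP h hh) (ih g hg)
      rw [← pow_succ] at h1
      rw [← pow_succ'] at h2
      have := ab _ _ (ab _ _ (sub_mem h1 h2) _ (inv_mem hg')) _ (inv_mem hh)
      convert this using 1
      have e : ((g : A) - 1) * (h - 1) - (h - 1) * (g - 1) = g * h - h * g := by noncomm_ring
      rw [e, sub_mul, sub_mul, Units.mul_inv_cancel_right, Units.mul_inv]
      rfl
    exact fun g hg => (this hg).2

variable {R : Type} [CommRing R]

abbrev Mt (R : Type) := Matrix (Fin 3) (Fin 3) R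

def FJ (J : Ideal R) : Submodule ℤ (Mt R) where
  carrier := {m | ∀ i j, m i j ∈ J}
  add_mem' := fun h h' i j => J.add_mem (h i j) (h' i j)
  zero_mem' := fun _ _ => J.zero_mem
  smul_mem' := fun c _ h i j => zsmul_mem (h i j) c

def NJ (J : Ideal R) : Submodule ℤ (Mt R) where
  carrier := {m | ∀ i j, i ≠ 0 ∨ j ≠ 2 → m i j ∈ J}
  add_mem' := fun h h' i j e => J.add_mem (h i j e) (h' i j e)
  zero_mem' := fun _ _ _ => J.zero_mem
  smul_mem' := fun c _ h i j e => zsmul_mem (h i j e) c

theorem nn (J : Ideal R) : NJ J * NJ J ≤ FJ J := Submodule.mul_le.2 fun m hm n hn i j => by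
  rw [Matrix.mul_apply]
  refine J.sum_mem fun k _ => ?_
  by_cases e : k = 2
  · exact J.mul_mem_left _ (hn k j (Or.inl (by rw [e]; decide)))
  · exact J.mul_mem_right _ (hm i k (Or.inr e))

theorem fn (J : Ideal R) : FJ J ≤ NJ J := fun _ h i j _ => h i j

theorem ff (J J' : Ideal R) : FJ J * FJ J' ≤ FJ (J * J') :=
  Submodule.mul_le.2 fun m hm n hn i j => by
    rw [Matrix.mul_apply]
    exact Ideal.sum_mem _ fun k _ => Ideal.mul_mem_mul (hm i k) (hn k j)

theorem npow (J : Ideal R) (k : ℕ) : NJ J ^ (2 * k) ≤ FJ (J ^ k) := by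
  induction k with
  | zero => intro m _ i j; simp
  | succ k ih =>
    rw [mul_add, mul_one, pow_add, pow_two, pow_succ J]
    exact (mul_le_mul' ih (nn J)).trans (ff _ _)

def GJ (J : Ideal R) : Subgroup (Mt R)ˣ where
  carrier := {g | (g : Mt R) - 1 ∈ NJ J}
  one_mem' := by simp
  mul_mem' := fun {a b} ha hb => by
    have := add_mem (add_mem (fn J (nn J (Submodule.mul_mem_mul ha hb))) ha) hb
    show _ ∈ NJ J
    convert this using 1
    rw [Units.val_mul]; noncomm_ring
  inv_mem' := fun {a} ha => by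
    have h := ff ⊤ J (Submodule.mul_mem_mul (m := ((a⁻¹ : (Mt R)ˣ) : Mt R)) (fun _ _ => trivial)
      (nn J (Submodule.mul_mem_mul ha ha)))
    rw [Ideal.top_mul] at h
    have := sub_mem (fn J h) ha
    show _ ∈ NJ J
    convert this using 1
    have e : ((a⁻¹ : (Mt R)ˣ) : Mt R) * ((a : Mt R) - 1) = 1 - (a⁻¹ : (Mt R)ˣ) := by
      rw [mul_sub, Units.inv_mul, mul_one]
    rw [← mul_assoc, e, sub_mul, e]
    noncomm_ring

theorem gj_nil {J : Ideal R} {k : ℕ} (h : J ^ k = ⊥) : (GJ J).lowerCentralSeries (2 * k) = ⊥ := by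
  refine eq_bot_iff.2 fun g hg => mem_bot.2 (Units.ext (sub_eq_zero.1 ?_))
  have h1 := lcs_pow (NJ J) ((nn J).trans (fn J)) (GJ J) (fun _ h => h) _ g hg
  have h2 : NJ J ^ (2 * k + 1) ≤ FJ ⊥ := by
    rw [pow_succ, ← Ideal.bot_mul (⊤ : Ideal R), ← h]
    exact (mul_le_mul' (npow J k) (d := FJ ⊤) fun _ _ _ _ => trivial).trans (ff _ _)
  ext i j
  exact h2 h1 i j

theorem span_nil (s : Finset R) (h : ∀ u ∈ s, u * u = 0) :
    Ideal.span (s : Set R) ^ (2 * s.card + 1) = ⊥ := by
  classical
  induction s using Finset.induction_on with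
  | empty => simp
  | insert u s hu ih =>
    rw [Finset.coe_insert, Ideal.span_insert, Finset.card_insert_of_notMem hu,
      show 2 * (s.card + 1) + 1 = 2 + (2 * s.card + 1) by ring, eq_bot_iff]
    refine Ideal.sup_pow_add_le_pow_sup_pow.trans (sup_le ?_ (ih fun v hv => h v (by simp [hv])).le)
    rw [Ideal.span_singleton_pow, pow_two, h u (by simp)]
    simp

theorem fam_nil {ι : Type} (s : Finset ι) (f : ι → R) (h : ∀ i ∈ s, f i * f i = 0) :
    ∃ J : Ideal R, (∀ i ∈ s, f i ∈ J) ∧ J ^ (2 * s.card + 1) = ⊥ := by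
  classical
  refine ⟨Ideal.span (s.image f : Set R), fun i hi => Ideal.subset_span (by simpa using ⟨i, hi, rfl⟩),
    le_bot_iff.1 ((Ideal.pow_le_pow_right ?_).trans (span_nil _ fun u hu => ?_).le)⟩
  · have := Finset.card_image_le (s := s) (f := f)
    omega
  · obtain ⟨i, hi, rfl⟩ := Finset.mem_image.1 hu
    exact h i hi

theorem loc {I : Ideal R} (hI : ∀ u ∈ I, u * u = 0) (F : Finset (GJ I)) :
    (closure (F : Set (GJ I))).lowerCentralSeries (2 * (2 * (F.card * 9) + 1)) = ⊥ := by
  obtain ⟨J, h1, h2⟩ := fam_nil (F ×ˢ (Finset.univ : Finset (Fin 3 × Fin 3)))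
    (fun p => if p.2.1 ≠ 0 ∨ p.2.2 ≠ 2 then ((p.1.1 : Mt R) - 1) p.2.1 p.2.2 else 0) fun p _ => by
      split_ifs with e
      · exact hI _ (p.1.2 _ _ e)
      · simp
  rw [Finset.card_product, Finset.card_univ, show Fintype.card (Fin 3 × Fin 3) = 9 from rfl] at h2
  rw [← map_eq_bot_iff_of_injective _ (GJ I).subtype_injective, map_lowerCentralSeries, eq_bot_iff,
    ← gj_nil h2]
  refine lowerCentralSeries_mono _ (map_le_iff_le_comap.2 ((closure_le _).2 fun g hg i j e => ?_))
  simpa [e] using h1 (g, i, j) (by simpa using hg)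

theorem eng {I : Ideal R} (hI : ∀ u ∈ I, u * u = 0) (g h : GJ I) : (cm h)^[74] g = 1 := by
  classical
  have := cm_lcs (K := closure (({g, h} : Finset (GJ I)) : Set (GJ I))) (u := g) (y := h)
    (subset_closure (by simp)) (subset_closure (by simp))
  refine cm_ge (mem_bot.1 (loc hI {g, h} ▸ this _)) ?_
  have := Finset.card_le_two (a := g) (b := h)
  omega

theorem sz (i j k l : Fin 3) (h : j ≠ k) (u v : R) :
    Matrix.single i j u * Matrix.single k l v = 0 := by
  rw [Matrix.single_mul_single_of_ne _ _ _ _ h]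

def el (i j : Fin 3) (h : i ≠ j) (u : R) : (Mt R)ˣ where
  val := 1 + Matrix.single i j u
  inv := 1 - Matrix.single i j u
  val_inv := by
    have := sz i j i j h.symm u u
    calc _ = 1 - Matrix.single i j u * Matrix.single i j u := by noncomm_ring
      _ = 1 := by rw [this, sub_zero]
  inv_val := by
    have := sz i j i j h.symm u u
    calc _ = 1 - Matrix.single i j u * Matrix.single i j u := by noncomm_ring
      _ = 1 := by rw [this, sub_zero]

theorem el_add (i j : Fin 3) (h : i ≠ j) (u v : R) : el i j h (u + v) = el i j h u * el i j h v := by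
  refine Units.ext ?_
  have := sz i j i j h.symm u v
  show 1 + Matrix.single i j (u + v) = (1 + Matrix.single i j u) * (1 + Matrix.single i j v)
  rw [Matrix.single_add, mul_add, add_mul, add_mul, this]
  noncomm_ring

theorem el_comm {i j k : Fin 3} (h1 : i ≠ j) (h2 : j ≠ k) (h3 : i ≠ k) (u v : R) :
    ⁅el i j h1 u, el j k h2 v⁆ = el i k h3 (u * v) := by
  refine Units.ext ?_
  have a := sz i j i j h1.symm u u
  have b := sz j k j k h2.symm v v
  have c := sz j k i j h3.symm v u
  show (1 + Matrix.single i j u) * (1 + Matrix.single j k v) * (1 - Matrix.single i j u) *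
    (1 - Matrix.single j k v) = 1 + Matrix.single i k (u * v)
  rw [← Matrix.single_mul_single_same u i j k v]
  generalize Matrix.single i j u = x at *
  generalize Matrix.single j k v = y at *
  calc _ = 1 + x * y - x * x * (1 - y) - (1 + x) * (y * x) * (1 - y) - (1 + x) * (y * y) := by
        noncomm_ring
    _ = _ := by rw [a, b, c]; noncomm_ring

def xx (R : Type) [CommRing R] : (Mt R)ˣ := el 0 2 (by decide) 1

def Al (H : Subgroup (Mt R)ˣ) (T : Ideal R) : Prop := ∀ i j h, ∀ u ∈ T, el i j h u ∈ H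

theorem al_step {H K : Subgroup (Mt R)ˣ} {T : Ideal R} (hn : K ≤ normalizer (H : Set (Mt R)ˣ))
    (hx : xx R ∈ H) (h : Al K T) : Al H (T ^ 3) := by
  have l : ∀ {i j k : Fin 3} (h1 : i ≠ j) (h2 : j ≠ k) (h3 : i ≠ k) {u v : R},
      el i j h1 u ∈ H → v ∈ T → el i k h3 (u * v) ∈ H := fun h1 h2 h3 u v a b => by
    rw [← el_comm h1 h2 h3]
    exact le_normalizer_iff_commutator_le_left.1 hn (commutator_mem_commutator a (h _ _ _ v b))
  have r : ∀ {i j k : Fin 3} (h1 : i ≠ j) (h2 : j ≠ k) (h3 : i ≠ k) {u v : R},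
      u ∈ T → el j k h2 v ∈ H → el i k h3 (u * v) ∈ H := fun h1 h2 h3 u v a b => by
    rw [← el_comm h1 h2 h3]
    exact le_normalizer_iff_commutator_le_right.1 hn (commutator_mem_commutator (h _ _ _ u a) b)
  have a01 : ∀ u ∈ T, el 0 1 (by decide) u ∈ H := fun u hu => by
    simpa using l (k := 1) _ (by decide) (by decide) hx hu
  have a12 : ∀ u ∈ T, el 1 2 (by decide) u ∈ H := fun u hu => by
    simpa using r (i := 1) (by decide) _ (by decide) hu hx
  have a21 : ∀ u ∈ T, ∀ v ∈ T, el 2 1 (by decide) (u * v) ∈ H := fun u hu v hv =>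
    r (by decide) _ _ hu (a01 v hv)
  have key : ∀ i j e, ∀ u ∈ T, ∀ v ∈ T, ∀ w ∈ T, el i j e (u * v * w) ∈ H := by
    intro i j e u hu v hv w hw
    have m := T.mul_mem_left u hv
    fin_cases i <;> fin_cases j
    all_goals first | exact absurd rfl e | skip
    · exact a01 _ (T.mul_mem_left _ hw)
    · exact l _ (by decide) _ (a01 _ m) hw
    · exact l _ (by decide) _ (a12 _ m) hw
    · exact a12 _ (T.mul_mem_left _ hw)
    · exact l _ (by decide) _ (a21 u hu v hv) hw
    · exact a21 _ m w hw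
  intro i j e a ha
  rw [pow_succ, pow_two] at ha
  refine Submodule.mul_induction_on ha (fun p hp w hw => Submodule.mul_induction_on hp
    (fun u hu v hv => key i j e u hu v hv w hw) fun p q hp hq => ?_) fun p q hp hq => ?_
  all_goals simp only [add_mul, el_add]; exact mul_mem hp hq

def KJ (J : Ideal R) : Subgroup (Mt R)ˣ :=
  (Units.map ((Ideal.Quotient.mk J).mapMatrix (m := Fin 3)).toMonoidHom).ker

instance (J : Ideal R) : (KJ J).Normal := MonoidHom.normal_ker _

theorem mem_KJ {J : Ideal R} {g h : (Mt R)ˣ} : g * h⁻¹ ∈ KJ J ↔ ∀ i j, (g.1 - h.1) i j ∈ J := by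
  rw [KJ, MonoidHom.mem_ker, map_mul, map_inv, mul_inv_eq_one, Units.ext_iff, ← Matrix.ext_iff]
  exact forall₂_congr fun i j => Ideal.Quotient.eq

theorem kj_le (J : Ideal R) : KJ J ≤ GJ J := fun g hg i j _ =>
  (mem_KJ (h := 1)).1 (by simpa using hg) i j

theorem el_mem {J : Ideal R} (i j : Fin 3) (h : i ≠ j) {u : R} (hu : u ∈ J) : el i j h u ∈ GJ J := by
  intro a b _
  simp only [el, add_sub_cancel_left, Matrix.single_apply]
  split_ifs
  exacts [hu, J.zero_mem]

theorem xx_mem (J : Ideal R) : xx R ∈ GJ J := by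
  intro a b e
  simp only [xx, el, add_sub_cancel_left, Matrix.single_apply]
  rw [if_neg (by tauto)]
  exact J.zero_mem

theorem nonsub {I : Ideal R} (hI : ∀ u ∈ I, u * u = 0) {g : GJ I} (hg : xx R * g.1⁻¹ ∈ KJ I)
    {n : ℕ} {K : ℕ → Subgroup (GJ I)} (h0 : K 0 = zpowers g) (h1 : K n = ⊤)
    (h2 : ∀ i < n, K i ≤ K (i + 1) ∧ ∀ a ∈ K (i + 1), ∀ b ∈ K i, a * b * a⁻¹ ∈ K i) :
    ∃ m, I ^ m = ⊥ := by
  obtain ⟨J, j1, j2⟩ := fam_nil (Finset.univ : Finset (Fin 3 × Fin 3))
    (fun p => ((xx R).1 - g.1.1) p.1 p.2) fun p _ => hI _ (mem_KJ.1 hg _ _)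
  have j3 : xx R * g.1⁻¹ ∈ KJ J := mem_KJ.2 fun i j => j1 (i, j) (Finset.mem_univ _)
  let H : ℕ → Subgroup (Mt R)ˣ := fun i => (K i).map (GJ I).subtype ⊔ KJ J
  have hx : ∀ i ≤ n, xx R ∈ H i := fun i hi => by
    have : g ∈ K i := by
      induction i with
      | zero => rw [h0]; exact mem_zpowers g
      | succ i ih => exact (h2 i hi).1 (ih (by omega))
    simpa using mul_mem (mem_sup_right j3 : _ ∈ H i) (mem_sup_left (mem_map_of_mem _ this))
  have : ∀ k i, i + k = n → Al (H i) (I ^ 3 ^ k) := by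
    intro k
    induction k with
    | zero =>
      intro i e a b c u hu
      refine mem_sup_left ⟨⟨_, el_mem a b c (by simpa using hu)⟩, ?_, rfl⟩
      rw [show i = n from e, h1]; trivial
    | succ k ih =>
      intro i e
      rw [pow_succ, pow_mul]
      refine al_step (sup_le (le_trans ?_ normalizer_le_normalizer_sup_normal)
        (le_sup_right.trans le_normalizer)) (hx i (by omega)) (ih (i + 1) (by omega))
      exact (map_mono (le_normalizer_iff.2 (h2 i (by omega)).2)).trans (le_normalizer_map _)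
  have h3 : H 0 ≤ GJ J := by
    refine sup_le ?_ (kj_le J)
    rw [h0, MonoidHom.map_zpowers, zpowers_le]
    simpa using mul_mem (inv_mem (kj_le J j3)) (xx_mem J)
  have h4 : I ^ 3 ^ n ≤ J := fun u hu => by
    simpa [el] using h3 (this n 0 (zero_add n) 1 0 (by decide) u hu) 1 0 (by decide)
  exact ⟨_, by rw [pow_mul, eq_bot_iff, ← j2]; exact Ideal.pow_right_mono h4 _⟩

open MvPolynomial in
noncomputable def rel : Ideal (MvPolynomial ℕ (ZMod 2)) :=
  Ideal.span ((fun s => monomial s 1) '' Set.range fun i : ℕ => Finsupp.single i 2)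

def E : Type := MvPolynomial ℕ (ZMod 2) ⧸ rel

noncomputable instance : CommRing E := inferInstanceAs (CommRing (MvPolynomial ℕ (ZMod 2) ⧸ rel))

noncomputable def mk : MvPolynomial ℕ (ZMod 2) →+* E := Ideal.Quotient.mk rel

theorem mk_zero {p : MvPolynomial ℕ (ZMod 2)} : mk p = 0 ↔ p ∈ rel := Ideal.Quotient.eq_zero_iff_mem

theorem mk_surj : Function.Surjective mk := Ideal.Quotient.mk_surjective

noncomputable def ee (i : ℕ) : E := mk (MvPolynomial.X i)

noncomputable def II : Ideal E := Ideal.span (Set.range ee)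

theorem two : (1 : E) + 1 = 0 := by
  have : (1 : MvPolynomial ℕ (ZMod 2)) + 1 = 0 := by
    rw [← MvPolynomial.C_1, ← MvPolynomial.C_add]
    exact MvPolynomial.C_0
  simpa using congrArg mk this

theorem sq : ∀ u ∈ II, u * u = 0 := by
  intro u hu
  induction hu using Submodule.span_induction with
  | mem x h =>
    obtain ⟨i, rfl⟩ := h
    rw [ee, ← map_mul, mk_zero, ← pow_two, MvPolynomial.X_pow_eq_monomial]
    exact Ideal.subset_span ⟨_, ⟨i, rfl⟩, rfl⟩
  | zero => simp
  | add x y _ _ hx hy => linear_combination hx + hy + x * y * two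
  | smul a x _ hx => rw [smul_eq_mul]; linear_combination a * a * hx

theorem not_nil (m : ℕ) : II ^ m ≠ ⊥ := fun h => by
  have h1 : ∀ m, ∏ i ∈ Finset.range m, ee i ∈ II ^ m := fun m => by
    induction m with
    | zero => simp
    | succ m ih =>
      rw [Finset.prod_range_succ, pow_succ]
      exact Ideal.mul_mem_mul ih (Ideal.subset_span ⟨m, rfl⟩)
  have h2 : ∏ i ∈ Finset.range m, (MvPolynomial.X i : MvPolynomial ℕ (ZMod 2)) =
      MvPolynomial.monomial (∑ i ∈ Finset.range m, Finsupp.single i 1) 1 := by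
    rw [MvPolynomial.monomial_sum_one]; rfl
  have h3 := h1 m
  simp only [ee] at h3
  rw [h, Ideal.mem_bot, ← map_prod, mk_zero, h2, rel,
    MvPolynomial.mem_ideal_span_monomial_image] at h3
  obtain ⟨_, ⟨i, rfl⟩, hi⟩ := h3 (∑ i ∈ Finset.range m, Finsupp.single i 1) (by
    simp [MvPolynomial.support_monomial])
  have := hi i
  simp only [Finsupp.single_eq_same, Finsupp.coe_finsetSum, Finset.sum_apply,
    Finsupp.single_apply, Finset.sum_ite_eq'] at this
  split_ifs at this <;> omega

theorem dich (a : E) : a ∈ II ∨ 1 - a ∈ II := by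
  obtain ⟨p, rfl⟩ := mk_surj a
  induction p using MvPolynomial.induction_on with
  | C r =>
    have : r = 0 ∨ r = 1 := by revert r; decide
    rcases this with rfl | rfl <;> simp
  | add p q hp hq =>
    rw [map_add]
    rcases hp with hp | hp <;> rcases hq with hq | hq
    · exact Or.inl (add_mem hp hq)
    · exact Or.inr (by convert sub_mem hq hp using 1; ring)
    · exact Or.inr (by convert sub_mem hp hq using 1; ring)
    · exact Or.inl (by convert neg_mem (add_mem hp hq) using 1; linear_combination two)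
  | mul_X p i _ => rw [map_mul]; exact Or.inl (II.mul_mem_left _ (Ideal.subset_span ⟨i, rfl⟩))

abbrev GG : Type := GJ II

noncomputable def x0 : GG := ⟨xx E, xx_mem _⟩

theorem x0_not : xx E ∉ KJ II := fun h => by
  have := (mem_KJ (h := 1)).1 (by simpa using h) 0 2
  have h1 : (1 : E) = 0 := by simpa [xx, el] using sq _ this
  exact not_nil 1 (eq_bot_iff.2 fun a _ => by rw [← mul_one a, h1, mul_zero]; exact zero_mem _)

theorem subn {g : GG} {n : ℕ} {K : ℕ → Subgroup GG} (h0 : K 0 = zpowers g) (h1 : K n = ⊤)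
    (h2 : ∀ i < n, K i ≤ K (i + 1) ∧ ∀ a ∈ K (i + 1), ∀ b ∈ K i, a * b * a⁻¹ ∈ K i) :
    g.1 ∈ KJ II := by
  rcases dich ((g.1.1 - 1) 0 2) with h | h
  · have := (mem_KJ (g := g.1) (h := 1)).2 fun i j => by
      by_cases e : i ≠ 0 ∨ j ≠ 2
      · exact g.2 i j e
      · push Not at e
        rw [e.1, e.2]; exact h
    simpa using this
  · refine (nonsub sq (mem_KJ.2 fun i j => ?_) h0 h1 h2).elim fun m hm => absurd hm (not_nil m)
    by_cases e : i ≠ 0 ∨ j ≠ 2
    · convert sub_mem (xx_mem II i j e) (g.2 i j e) using 1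
      simp
    · push Not at e
      rw [e.1, e.2]
      convert h using 1
      simp [xx, el]

theorem good : Good (Set.univ : Set GG) := fun F hF _ =>
  ⟨_, by simpa using loc sq hF.toFinset⟩

instance : Countable GG := by
  have : Countable (MvPolynomial ℕ (ZMod 2)) := AddMonoidAlgebra.coeff_injective.countable
  have : Countable E := mk_surj.countable
  have : Countable (Mt E) := inferInstanceAs (Countable (Fin 3 → Fin 3 → E))
  have : Countable (Mt E)ˣ := Units.val_injective.countable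
  infer_instance

end Pool.Agent.H.MP_b39e30_al
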